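import Pool.Agent.TC.Final
import Pool.Agent.TC.Lit.All
import Pool.Agent.TC.Pub.Main

/-!
# MP_bc2780_gt: a closed aspherical `7`-manifold with a non-zero tautological class in
`H^2(BDiff_0(M); ZMod 2)`

The manifold is `M = (T⁴ × Y) / (ℤ/2)^5`, where
`Y = {z ∈ T⁴ : (2 - Re z₄ - Re z₅)(2 - Re z₆ - Re z₇) = 2}`, the class is `c = w₂³ w₃`, and the
flat bundle over the projective plane whose holonomy is the half turn of a circle action on `M`
detects `κ_c`.  The definitions are in `Pool.Agent.TC.Pub.Defs`, `Pool.Agent.TC.Jets` and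
`Pool.Agent.TC.Milnor`.
-/

set_option autoImplicit false

open scoped Manifold ContDiff Topology

namespace Pool.Agent.Results.MP_bc2780_gt.AsphericalKappa

open TC TC.Pub

/-- There are a closed connected smooth aspherical manifold `M` of dimension `7` with an
orientation and a class `c ∈ H^9(BSO(7); ZMod 2)` for which the tautological class
`κ_c = π_!(c(T_v E)) ∈ H^2(BDiff_0(M); ZMod 2)` is well defined and not zero. -/
theorem result :
    ∃ (M : ClosedManifold 7) (o : Orient 7 M.mfd), Pub.Aspherical M.X ∧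
      ∃ (c : H (Pub.BSO 7) 9) (κ : H (BG (Pub.Diff0 M)) 2),
        (∀ κ' : H (BG (Pub.Diff0 M)) 2, Pub.IsKappa (m := 6) (j := 2) M o c κ' ↔ κ' = κ) ∧
          κ ≠ H.zero (BG (Pub.Diff0 M)) 2 :=
  TC.Pub.goal3 (TC.Lit.all_LIT TC.goal)

end Pool.Agent.Results.MP_bc2780_gt.AsphericalKappa
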